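import Pool.Agent.H82.PRP.Stmts

set_option autoImplicit false

namespace Pool.Agent.H82.PRP

open Filter Topology

theorem lcf_thm : LCFStmt := by
  intro p _ F _ _ _ _ _ gen D hD X f hf
  have h1 : ∀ x : F, ∃ n, ∀ d ∈ D n, f (x * d) = f x := by
    intro x
    have ho : IsOpen {d : F | f (x * d) = f x} := by
      have := hf.isOpen_fiber (f x)
      exact this.preimage (continuous_const.mul continuous_id)
    obtain ⟨n, hn⟩ := hD.basis _ ho (by simp)
    exact ⟨n, fun d hd => hn hd⟩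
  choose N hN using h1
  have hopen : ∀ x : F, IsOpen {y : F | x⁻¹ * y ∈ D (N x)} := by
    intro x
    exact (hD.isOpen (N x)).preimage (continuous_const.mul continuous_id)
  obtain ⟨t, ht⟩ := isCompact_univ.elim_finite_subcover (fun x : F => {y : F | x⁻¹ * y ∈ D (N x)})
    hopen (by
      intro y _
      refine Set.mem_iUnion.2 ⟨y, ?_⟩
      show y⁻¹ * y ∈ D (N y)
      rw [inv_mul_cancel]
      exact (D _).one_mem)
  refine ⟨t.sup N, fun y l hl => ?_⟩
  obtain ⟨x, hx, hy⟩ := Set.mem_iUnion₂.1 (ht (Set.mem_univ y))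
  have hy' : x⁻¹ * y ∈ D (N x) := hy
  have hl' : l ∈ D (N x) := hD.anti (Finset.le_sup hx) hl
  have e1 : f (x * (x⁻¹ * y)) = f x := hN x _ hy'
  have e2 : f (x * (x⁻¹ * y * l)) = f x := hN x _ ((D (N x)).mul_mem hy' hl')
  rw [mul_inv_cancel_left] at e1
  have e3 : x * (x⁻¹ * y * l) = y * l := by group
  rw [e3] at e2
  rw [e1, e2]

end Pool.Agent.H82.PRP
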