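import Pool.Agent.H82.PRP.Stmts

set_option autoImplicit false

namespace Pool.Agent.H82.PRP

open Filter Topology

theorem limp_thm : LIMPStmt := by
  intro p _ F _ _ _ _ _ gen D hD w hw
  have hcl : ∀ K, IsClosed {v : F | (pp w K)⁻¹ * v ∈ D K} := by
    intro K
    have h1 : IsClosed (D K : Set F) := Subgroup.isClosed_of_isOpen _ (hD.isOpen K)
    exact h1.preimage (continuous_const.mul continuous_id)
  have hne : (⋂ K, {v : F | (pp w K)⁻¹ * v ∈ D K}).Nonempty := by
    apply IsCompact.nonempty_iInter_of_sequence_nonempty_isCompact_isClosed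
    · intro K v hv
      have hv' : (pp w (K + 1))⁻¹ * v ∈ D (K + 1) := hv
      have h1 : (pp w K)⁻¹ * v = w K * ((pp w (K + 1))⁻¹ * v) := by
        simp only [pp]
        group
      show (pp w K)⁻¹ * v ∈ D K
      rw [h1]
      exact (D K).mul_mem (hw K) (hD.anti (Nat.le_succ K) hv')
    · intro K
      refine ⟨pp w K, ?_⟩
      show (pp w K)⁻¹ * pp w K ∈ D K
      rw [inv_mul_cancel]
      exact (D K).one_mem
    · exact (hcl 0).isCompact
    · exact hcl
  obtain ⟨v, hv⟩ := hne
  exact ⟨v, fun K => (Set.mem_iInter.1 hv K)⟩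

end Pool.Agent.H82.PRP
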